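import Mathlib
import Pool.Agent.U496.UP.Mach

/-!
# The parity of `p(n)` against linear machines and automata of growing size (MP_ebc808_nt)

If the parities of the values of the partition function are like random bits, then no predictor of small size is right much
more often than half of the time. Here the predictors are linear machines over `F_2` of dimension `S` (for instance linear
recurrences of order `S`, with corrections at some places, or automata with `S` states over an arbitrary alphabet), where
`S` may grow with `N`.

(1) For `S ≤ √N / 4` all nonzero linear patterns `∑_(i ≤ S) c_i p(n + i)` take both values at least `N ^ (1/2 - ε)` times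
on `[0, N]`, uniformly in `S` and `c`. (2) If `E` is the number of the failures up to `N` of a linear machine of dimension at
most `S ≤ √N / 4`, then `(S + 1) E ≥ N ^ (1/2 - ε)`. (3) The same for automata.

Proof. Let `F` be the generating function of the parities, `T = ∑ X ^ (g)`, `g` the generalized pentagonal numbers, so that
`F T = 1`, and let `R` be the reversed polynomial of the pattern, without loss of generality with `R(0) = 1`. The
coefficient of `R = (R F) T` at `m = k (3 k - 1) / 2`, `k ≥ 2 S + 2`, is zero, and it is the sum of `R(0) = 1` and of the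
values of the pattern at the places `m - g - S`, `g < m`; these places are not negative since the distance of `m` to all
smaller pentagonal numbers is at least `k / 2`. So the pattern has the value `1` at `m - g - S` for some `g`. A place `h` comes
from at most `d(24 (h + S))` numbers `m`, because `24 (m - g) = (6 k - 1) ^ 2 - v ^ 2`. (2) By Cayley and Hamilton the
pattern of the coefficients of the characteristic polynomial of a machine of dimension `d` vanishes at `n` if there is no
failure in `[n, n + d]`. (3) An automaton with `S` states is a linear machine of dimension `S`.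
-/

set_option autoImplicit false

namespace Pool.Agent.Results.MP_ebc808_nt.LinearMachines

open Finset

/-- the parity of the number of partitions of `n` -/
noncomputable def parity (n : ℕ) : ZMod 2 := (Fintype.card (Nat.Partition n) : ZMod 2)

open Classical in
/-- the number of the `n ≤ N` at which the linear machine `(T, o)` in the states `x 0, x 1, …` fails: `x (n + 1) ≠ T (x n)`,
or the output `o (x n)` is not the parity of `p(n)` -/
noncomputable def failures {V : Type} [AddCommGroup V] [Module (ZMod 2) V]
    (T : V →ₗ[ZMod 2] V) (o : V →ₗ[ZMod 2] ZMod 2) (x : ℕ → V) (N : ℕ) : ℕ :=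
  ((range (N + 1)).filter fun n => x (n + 1) ≠ T (x n) ∨ o (x n) ≠ parity n).card

/-- the states of an automaton which reads `a 0, a 1, …` -/
def state {Q A : Type} (next : Q → A → Q) (q₀ : Q) (a : ℕ → A) : ℕ → Q
  | 0 => q₀
  | n + 1 => next (state next q₀ a n) (a n)

open Classical in
/-- the number of the `n ≤ N` with `guess (state n) ≠ a n`, plus the number of the `n ≤ N` for which `φ (a n)` is not the
parity of `p(n)` -/
noncomputable def cost {Q A : Type} (next : Q → A → Q) (guess : Q → A) (q₀ : Q) (a : ℕ → A) (φ : A → ZMod 2)
    (N : ℕ) : ℕ :=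
  ((range (N + 1)).filter fun n => guess (state next q₀ a n) ≠ a n).card +
    ((range (N + 1)).filter fun n => φ (a n) ≠ parity n).card

/-- **Linear machines and automata of growing size.** For `ε > 0` there is `N₀` such that for all `N ≥ N₀` and all
`S ≤ √N / 4`:
(1) for all `c : Fin (S + 1) → ZMod 2`, `c ≠ 0`, and all `κ` at least `N ^ (1/2 - ε)` of the `n ≤ N`
satisfy `∑_i c_i p(n + i) = κ` modulo 2;
(2) for all vector spaces `V` over `F_2` of dimension at most `S`, all linear `T : V → V`, `o : V → F_2` and all sequences
`x` in `V` the number `E` of the failures of `(T, o)` up to `N` satisfies `N ^ (1/2 - ε) ≤ (S + 1) E`;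
(3) the same holds for the cost `E` of all automata with at most `S` states, over all alphabets. -/
theorem result (ε : ℝ) (hε : 0 < ε) : ∃ N₀ : ℕ, ∀ N : ℕ, N₀ ≤ N → ∀ S : ℕ, 16 * S ^ 2 ≤ N →
    (∀ c : Fin (S + 1) → ZMod 2, c ≠ 0 → ∀ κ : ZMod 2,
      (N : ℝ) ^ (1 / 2 - ε) ≤ ((range (N + 1)).filter fun n => ∑ i : Fin (S + 1), c i * parity (n + i) = κ).card) ∧
    (∀ (V : Type) [AddCommGroup V] [Module (ZMod 2) V] [FiniteDimensional (ZMod 2) V],
      Module.finrank (ZMod 2) V ≤ S → ∀ (T : V →ₗ[ZMod 2] V) (o : V →ₗ[ZMod 2] ZMod 2) (x : ℕ → V),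
        (N : ℝ) ^ (1 / 2 - ε) ≤ (S + 1) * (failures T o x N : ℝ)) ∧
    (∀ (Q A : Type) [Fintype Q], Fintype.card Q ≤ S → ∀ (next : Q → A → Q) (guess : Q → A) (q₀ : Q) (a : ℕ → A)
      (φ : A → ZMod 2), (N : ℝ) ^ (1 / 2 - ε) ≤ (S + 1) * (cost next guess q₀ a φ N : ℝ)) := by
  obtain ⟨N₁, h1⟩ := Pool.Agent.U496.UP.both_many Pool.Agent.U496.UP.odd_many ε hε
  obtain ⟨N₂, h2⟩ := Pool.Agent.U496.UP.failures_lower Pool.Agent.U496.UP.odd_many ε hε
  obtain ⟨N₃, h3⟩ := Pool.Agent.U496.UP.cost_lower Pool.Agent.U496.UP.odd_many ε hε
  refine ⟨N₁ + N₂ + N₃, fun N hN S hS => ⟨?_, ?_, ?_⟩⟩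
  · intro c hc κ
    set c' : ℕ → ZMod 2 := fun i => if h : i < S + 1 then c ⟨i, h⟩ else 0 with hc'
    have e1 : ∀ i : Fin (S + 1), c' i = c i := fun i => dif_pos i.2
    have hne : ∃ i, i ≤ S ∧ c' i ≠ 0 := by
      by_contra hcon
      push Not at hcon
      apply hc
      funext i
      have := hcon i (by have := i.2; omega)
      rw [e1] at this
      exact this
    refine (h1 N (by omega) S hS c' hne κ).trans (le_of_eq ?_)
    congr 2
    apply filter_congr
    intro n _
    rw [Pool.Agent.U496.UP.pat, Finset.sum_range]
    have e : ∑ i : Fin (S + 1), c' i * Pool.Agent.U496.UP.p2 (n + i) = ∑ i : Fin (S + 1), c i * parity (n + i) := by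
      refine Finset.sum_congr rfl fun i _ => ?_
      rw [e1]
      rfl
    rw [e]
  · intro V _ _ _ hV T o x
    exact h2 N (by omega) S hS V hV T o x
  · intro Q A _ hQ next guess q₀ a φ
    have hst : ∀ n, Pool.Agent.U496.UP.state next q₀ a n = state next q₀ a n := by
      intro n
      induction n with
      | zero => rfl
      | succ n ih =>
        change next (Pool.Agent.U496.UP.state next q₀ a n) (a n) = next (state next q₀ a n) (a n)
        rw [ih]
    have hcost : Pool.Agent.U496.UP.cost Pool.Agent.U496.UP.p2 next guess q₀ a φ N = cost next guess q₀ a φ N := by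
      have hst' : Pool.Agent.U496.UP.state next q₀ a = state next q₀ a := funext hst
      unfold Pool.Agent.U496.UP.cost cost
      rw [hst']
      rfl
    rw [← hcost]
    exact h3 N (by omega) S hS Q A hQ next guess q₀ a φ

end Pool.Agent.Results.MP_ebc808_nt.LinearMachines
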