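import Pool.Agent.U286.DQ.Shift
import Pool.Agent.Results.MP_ebc808_nt.AutomataInAllBases

set_option autoImplicit false

/-!
# Parity patterns of the partition function against sums of functions of few digits (MP_ebc808_nt)

Let `𝓜` be a finite set of positive integers, `M ≥ 1`, `𝓖` a finite set of bases `≥ 2` and
`D, R, Q ≥ 0`. Call `m ∈ 𝓜` active if `m / g ≢ m' / g (mod 24)`, `g = gcd(m, m')`, for all `m' ∈ 𝓜`,
`m' ≠ m`. There is a constant `C`, depending only on these data, such that for all `K`, all coefficients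
`c` in `F_2` with `c(m, i) ≠ 0` for some active `m` and some `i < K`, all `ρ` and all functions `u` of the
kind described below (they need not be fixed) both values are taken by

  `W(n) = ∑_{m ∈ 𝓜} ∑_{i < K} c(m, i) p(m n + i) + u(n)` modulo 2

on the `n ≡ ρ (mod M)` in every interval `[A, C (A + K)]`. The functions `u` are the sums modulo 2 of
arbitrarily many functions, each of which depends only on at most `D` digits of `n`, at arbitrary places
and in arbitrary bases of `𝓖`, and on the outputs `v_1(n), …, v_R(n)` of `R` computations which read the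
digits of `n` in one pass, from the lowest or from the highest, in a base of `𝓖` (it may depend on the
computation) with a memory of `Q` states; what is done with a digit may depend on its place.

Examples. (1) `D = 0`: all Boolean functions of finitely many automata in different bases. (The starting
file `AutomataInAllBases` has the sums modulo 2, of arbitrarily many automata.) (2) All polynomials of
degree `≤ D` over `F_2` in the binary digits of `n`, with any number of monomials. (3) The number modulo
2 of the places `j < J` at which the binary and the ternary digit of `n` are equal (`D = 2`); `C` does not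
depend on `J`. Such functions cannot be computed with bounded memory.

If the density in the question is `1 / 2`, then no simple rule should predict the parity of `p(n)` better
than chance. Here (`𝓜 = {1}`, `K = 1`) every rule of this kind is wrong, and is right, for some
`n ≡ ρ (mod M)` in every interval `[A, C (A + 1)]`.

Method. Let `k` be large and `M'` the product of `M` and all `g ^ k`, `g ∈ 𝓖`. For `r < 2 ^ k` the
addition of `r` to a multiple `N` of `M'` has no carries over the place `k` in any base of `𝓖`. As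
functions of `r`, all the `u(N + r)` are combinations over `F_2` of at most `C' (a k + 1) ^ D` functions
which do not depend on `N` (an indicator function of the states, times a product of at most `D`
indicator functions of low digits). Since `2 ^ k / 2 ^ M` is larger, there is a nonempty set `Y` of
residues `r < 2 ^ k`, `r ≡ ρ (mod M)`, such that the sum of the `u(N + r) + κ` over `r ∈ Y` is zero for all
multiples `N ≥ 1` of `M'`. The sum of the joint pattern at `N + r` over `r ∈ Y` is again such a joint
pattern at `N`, because the coefficients of the dilate `m` are multiplied by the nonzero polynomial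
`∑_{r ∈ Y} X ^ (m r)`, and takes the value `1` at some multiple `N` of `M'` in every interval
`[A, C'' (A + K + 2 ^ k)]` (starting file `AutomataInAllBases`, without automata).
-/

namespace Pool.Agent.Results.MP_ebc808_nt.LocalDigitFunctions

open Pool.Agent.U286.DQ

theorem result (𝓜 : Finset ℕ) (h0 : 0 ∉ 𝓜) (M : ℕ) (hM : 0 < M) (𝓖 : Finset ℕ)
    (h𝓖 : ∀ g ∈ 𝓖, 2 ≤ g) (D R Q : ℕ) :
    ∃ C : ℕ, ∀ (K : ℕ) (c : ℕ → ℕ → ZMod 2),
      (∃ m ∈ 𝓜, (∀ m' ∈ 𝓜, m ≠ m' → ¬ m / Nat.gcd m m' ≡ m' / Nat.gcd m m' [MOD 24]) ∧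
        ∃ i < K, c m i ≠ 0) →
      ∀ (ρ : ℕ) (u : ℕ → ZMod 2), LocalSum 𝓖 D R Q u →
      ∀ (κ : ZMod 2) (A : ℕ), ∃ n, A ≤ n ∧ n ≤ C * (A + K) ∧ n ≡ ρ [MOD M] ∧
        ∑ m ∈ 𝓜, ∑ i ∈ Finset.range K,
          c m i * (Fintype.card (Nat.Partition (m * n + i)) : ZMod 2) + u n = κ := by
  obtain ⟨C, hC⟩ := main_abs 𝓖 h𝓖 D R Q M hM (𝓜.sup id)
    (fun K W => ∃ c : ℕ → ℕ → ZMod 2,
      (∃ m ∈ 𝓜, (∀ m' ∈ 𝓜, m ≠ m' → ¬ m / Nat.gcd m m' ≡ m' / Nat.gcd m m' [MOD 24]) ∧
        ∃ i < K, c m i ≠ 0) ∧
      ∀ n, W n = ∑ m ∈ 𝓜, ∑ i ∈ Finset.range K,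
        c m i * (Fintype.card (Nat.Partition (m * n + i)) : ZMod 2)) (by
      rintro K W ⟨c, ⟨m, -, -, i, hi, -⟩, -⟩
      omega) (by
      rintro S Y hY hYS K W ⟨c, hc, hW⟩
      have h : ∀ m : ℕ, ∃ c' : ℕ → ZMod 2, m ∈ 𝓜 →
          ((∃ i < K, c m i ≠ 0) → ∃ i < K + 𝓜.sup id * S, c' i ≠ 0) ∧
          ∀ φ : ℕ → ZMod 2, ∑ i ∈ Finset.range (K + 𝓜.sup id * S), c' i * φ i =
            ∑ r ∈ Y, ∑ i ∈ Finset.range K, c m i * φ (m * r + i) := by
        intro m
        by_cases hm : m ∈ 𝓜
        · have hm0 : 0 < m := Nat.pos_of_ne_zero fun h => h0 (h ▸ hm)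
          have hmS : m ≤ 𝓜.sup id := Finset.le_sup (f := id) hm
          obtain ⟨c', h1, h2⟩ := exists_sum m hm0 K S (K + 𝓜.sup id * S)
            (Nat.add_le_add_left (Nat.mul_le_mul_right _ hmS) _) Y hY hYS (c m)
          exact ⟨c', fun _ => ⟨h1, h2⟩⟩
        · exact ⟨0, fun h => absurd h hm⟩
      choose c' hc' using h
      refine ⟨c', ?_, fun n => ?_⟩
      · obtain ⟨m, hm, hact, hi⟩ := hc
        exact ⟨m, hm, hact, (hc' m hm).1 hi⟩
      · simp only [hW]
        rw [Finset.sum_comm]
        refine Finset.sum_congr rfl fun m hm => ?_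
        have h1 := (hc' m hm).2 fun i => (Fintype.card (Nat.Partition (m * n + i)) : ZMod 2)
        rw [h1]
        refine Finset.sum_congr rfl fun r _ => ?_
        refine Finset.sum_congr rfl fun i _ => ?_
        rw [mul_add, add_assoc]) (by
      intro M' hM'
      obtain ⟨C, hC⟩ := AutomataInAllBases.result 𝓜 h0 0 (fun j => j.elim0) (fun j => j.elim0)
        (fun j => j.elim0) 0 (fun j => j.elim0) (fun j => j.elim0) ∅ (by simp) M' hM' 0
      refine ⟨C, ?_⟩
      rintro K W ⟨c, ⟨m, hm, hact, hi⟩, hW⟩ A
      obtain ⟨n, h1, h2, h3, h4⟩ := hC K c (fun j => j.elim0) (fun j => j.elim0) 0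
        ⟨m, hm, hact, fun j => j.elim0, hi⟩ 0 (fun j => j.elim0) (fun j => j.elim0)
        (fun j => j.elim0) (fun j => j.elim0) 1 A
      refine ⟨n, h1, h2, h3, ?_⟩
      rw [hW, ← h4]
      simp)
  refine ⟨C, fun K c hc ρ u hu κ A => ?_⟩
  exact hC K _ ⟨c, hc, fun _ => rfl⟩ ρ u hu κ A

end Pool.Agent.Results.MP_ebc808_nt.LocalDigitFunctions
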