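import Pool.Agent.U448.OddQ.Fin

set_option autoImplicit false

/-!
# Odd values of the partition function on square classes modulo primes up to a power of `x`
(MP_ebc808_nt)

For every `K`, every `ε > 0`, all large `x`, every set `L` of at most `K` primes `≡ 5 (mod 8)` with
product at most `x ^ (1 / 33)`, all `b` with `2 ^ b ≤ (log x) ^ (2 - ε)` and every residue `ρ`: at least
`√x (log x) ^ (1 - ε) / 2 ^ b` of the integers `n ≤ x` with `n ≡ ρ (mod 2 ^ b)`, for which `1 - 24 n` is a
square modulo every prime of `L`, have an odd number of partitions.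

These `n` fill only a proportion of about `1 / 2 ^ (b + |L|)` of all integers, and the moduli are odd and
may grow like a power of `x`. The starting file `OddProgressions` is the case `L = ∅`.

Method. The frame is that of `H307R2/OP` and `H413R3/OddT`. The numbers `N` with `2 ^ (r - 1) - 1` prime
factors used there satisfy `24 n + 4 ^ r u ^ 2 = 3 N + 1` for some `u` and some `n` with `p n` odd. Let `N`
run over the multiples of the primes of `L`: then `1 - 24 n` is congruent to `(2 ^ r u) ^ 2` modulo these
primes. The number of the `N` is smaller by the factor `∏ L`, but so is the bound for the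
multiplicity of an `n` (the `u` lie in at most `2 ^ |L|` classes modulo `∏ L`), so nothing is lost.
The primes `≡ 5 (mod 8)` do not disturb the parity condition on the number of the prime factors
`≡ 3 (mod 8)` of `N` (zero or two), nor the primes which kill the strongly biased kernels.
-/

namespace Pool.Agent.Results.MP_ebc808_nt.OddValuesSquareClasses

theorem result (K : ℕ) (ε : ℝ) (hε : 0 < ε) : ∃ x0 : ℝ, ∀ x : ℕ, x0 ≤ x → ∀ L : Finset ℕ,
    L.card ≤ K → (∀ l ∈ L, l.Prime ∧ l % 8 = 5) → (∏ l ∈ L, l) ^ 33 ≤ x → ∀ b ρ : ℕ,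
    (2 : ℝ) ^ b ≤ Real.log x ^ (2 - ε) →
    Real.sqrt x * Real.log x ^ (1 - ε) / 2 ^ b ≤
      ({n : ℕ | n ≤ x ∧ n % 2 ^ b = ρ % 2 ^ b ∧ (∀ l ∈ L, IsSquare (1 - 24 * (n : ZMod l))) ∧
        Odd (Fintype.card (Nat.Partition n))}.ncard : ℝ) :=
  Pool.Agent.U448.OddQ.main K ε hε

end Pool.Agent.Results.MP_ebc808_nt.OddValuesSquareClasses
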