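import Pool.Agent.U204.PN.Fin
import Pool.Agent.U27.PN.LOC
import Pool.Agent.U843.PN.ONE
import Pool.Agent.U461.PN.AVG
import Pool.Agent.U364.PN.TAIL
import Pool.Agent.U139.PN.COV
import Pool.Agent.U981.PN.MOM
import Pool.Agent.U187.PN.SLLN
import Pool.Agent.U705.PN.FOUR
import Pool.Agent.U894.PN.THIN

/-!
# Partition functions after thin random changes of the set of parts are normal modulo every `M`

Let `S` be ANY set of parts (for instance all positive integers, when `pt S n = p(n)`).  Every `n` is changed
(removed from `S` if it is in `S`, added if it is not) independently with a probability between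
`c (n + 1) ^ (-δ)` and `1 / 2`, where `δ < 1 / 2`; with probabilities of order `n ^ (-δ)` only `O(N ^ (1 - δ))` of
the parts up to `N` are changed.  Almost surely the number of partitions of `n` into parts from the changed set is
normal modulo every `M`: every block of `k` residues appears in it with the exact frequency `M ^ (-k)`.  In
particular it is odd with density exactly `1 / 2`, also on every arithmetic progression.

Proof.  For the numbers `x ≤ N` the parts `m` with `N < 2 m` enter linearly, with coefficient `pt (x - m)`, which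
depends only on the parts at most `N / 2`.  So, given these, a character of a linear form in values of the partition
function is a product of independent factors, and its mean is small as soon as the linear form takes many nonzero
values at small arguments; it does, since its value at `i` is shifted by a nonzero amount when the largest relevant
part is changed, whatever the smaller parts are.  This gives correlations decaying like `exp (- c d N ^ (-2 δ))`, a
second moment `O(N ^ (1 + 2 δ))`, and almost sure convergence.

Project PN, helper204; the parts were proved by helper27 (LOC), helper843 (ONE), helper461 (AVG), helper364 (TAIL),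
helper139 (COV), helper981 (MOM), helper187 (SLLN), helper705 (FOUR), helper894 (THIN).
-/

set_option autoImplicit false

namespace Pool.Agent.Results.MP_ebc808_nt.RandomChangesOfParts

open MeasureTheory Filter Topology Finset

/-- The number of partitions of `n` into parts from `A`. -/
noncomputable def pt (A : Set ℕ) (n : ℕ) : ℕ := Nat.card {p : n.Partition // ∀ i ∈ p.parts, i ∈ A}

/-- The changed set of parts: `n` is in it iff exactly one of `n ∈ S` and `ω n = true` holds. -/
def changed (S : Set ℕ) (ω : ℕ → Bool) : Set ℕ := {n | n ∈ S ↔ ω n = false}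

open Classical in
/-- `a` is normal modulo `M`: every block of `k` residues, for every `k`, appears with frequency `M ^ (-k)`. -/
def NormalMod (M : ℕ) (a : ℕ → ℕ) : Prop := ∀ (k : ℕ) (b : Fin k → ZMod M),
  Tendsto (fun N : ℕ => (((range N).filter fun n => ∀ j : Fin k, (a (n + j) : ZMod M) = b j).card : ℝ) / N)
    atTop (𝓝 (((M : ℝ) ^ k)⁻¹))

open Classical in
theorem result :
    (∀ (μ : ℕ → Measure Bool) [∀ n, IsProbabilityMeasure (μ n)] (S : Set ℕ) (c δ : ℝ), 0 < c → 0 < δ →
      δ < 1 / 2 → (∀ n : ℕ, c * ((n : ℝ) + 1) ^ (-δ) ≤ (μ n).real {true} ∧ (μ n).real {true} ≤ 1 / 2) →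
      ∀ᵐ ω ∂(Measure.infinitePi μ), ∀ M : ℕ, 1 ≤ M → NormalMod M (pt (changed S ω))) ∧
    (∀ (S : Set ℕ) (θ : ℝ), 1 / 2 < θ → ∃ (A : Set ℕ) (C : ℝ),
      (∀ N : ℕ, (((range N).filter fun n => ¬ (n ∈ A ↔ n ∈ S)).card : ℝ) ≤ C * (N : ℝ) ^ θ) ∧
      ∀ M : ℕ, 1 ≤ M → NormalMod M (pt A)) := by
  refine ⟨fun μ _ S c δ hc hδ hδ2 hμ => ?_, fun S θ hθ => ?_⟩
  · filter_upwards [Pool.Agent.U204.PN.assembly Pool.Agent.U27.PN.t_LOC Pool.Agent.U843.PN.t_ONE
      Pool.Agent.U461.PN.t_AVG Pool.Agent.U364.PN.TAIL.t_TAIL Pool.Agent.U139.PN.COV.t_COV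
      Pool.Agent.U981.PN.t_MOM Pool.Agent.U187.PN.t_SLLN Pool.Agent.U705.PN.FOUR.t_FOUR μ S c δ hc hδ hδ2 hμ]
      with ω hω M hM k b
    exact hω M k hM b
  · obtain ⟨A, C, h1, h2⟩ := Pool.Agent.U204.PN.few_changes Pool.Agent.U27.PN.t_LOC Pool.Agent.U843.PN.t_ONE
      Pool.Agent.U461.PN.t_AVG Pool.Agent.U364.PN.TAIL.t_TAIL Pool.Agent.U139.PN.COV.t_COV
      Pool.Agent.U981.PN.t_MOM Pool.Agent.U187.PN.t_SLLN Pool.Agent.U705.PN.FOUR.t_FOUR
      Pool.Agent.U894.PN.t_THIN S θ hθ
    exact ⟨A, C, h1, fun M hM k b => h2 M k hM b⟩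

end Pool.Agent.Results.MP_ebc808_nt.RandomChangesOfParts
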